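import Pool.Agent.H916R2.Indep

/-!
# Varieties of Fermat type: independence of the sawtooth functions
-/

set_option autoImplicit false

open Finset

namespace Pool.Agent.U231.FT

open Pool.Agent.H916R2

/-- the sum of the sawtooth functions -/
def sawSum {N : ℕ} (a : Multiset (ZMod N)) (t : ZMod N) : ℤ := (a.map fun x => saw (t * x)).sum

variable {N : ℕ} [Fact N.Prime]

/-- the Stickelberger sums of odd characters do not vanish at `1` -/
theorem SS_one_ne_zero (χ : DirichletCharacter ℂ N) (hχ : χ.Odd) : SS χ 1 ≠ 0 := by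
  obtain ⟨a, ha⟩ := exists_SS_ne_zero χ hχ
  have ha0 : a ≠ 0 := by
    rintro rfl
    apply ha
    unfold SS
    refine sum_eq_zero fun t _ => ?_
    rw [mul_zero, saw_zero, Int.cast_zero, mul_zero]
  intro h
  apply ha
  have h1 := SS_unit χ (Units.mk0 a ha0) 1
  rw [Units.val_mk0, mul_one, h, mul_zero] at h1
  exact h1

/-- **The sawtooth functions `t ↦ saw (t x)` are independent up to the sign of `x`.** -/
theorem eq_zero_of_saw {f : ZMod N → ℂ} (hodd : ∀ x, f (-x) = -f x)
    (h : ∀ t : (ZMod N)ˣ, ∑ x, f x * (saw ((t : ZMod N) * x) : ℂ) = 0) : f = 0 := by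
  classical
  have h0 : f 0 = 0 := by
    have h1 := hodd 0
    rw [neg_zero] at h1
    have h2 : (2 : ℂ) * f 0 = 0 := by linear_combination h1
    simpa using h2
  -- the Fourier coefficients
  have hF : ∀ χ : DirichletCharacter ℂ N, ∑ u : (ZMod N)ˣ, f u * (χ u)⁻¹ = 0 := by
    intro χ
    rcases χ.even_or_odd with he | ho
    · have h1 : ∑ u : (ZMod N)ˣ, f u * (χ u)⁻¹ = -∑ u : (ZMod N)ˣ, f u * (χ u)⁻¹ := by
        conv_lhs => rw [← Equiv.sum_comp (Equiv.neg (ZMod N)ˣ)]
        rw [← sum_neg_distrib]
        refine sum_congr rfl fun u _ => ?_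
        rw [Equiv.neg_apply, Units.val_neg, hodd, he.eval_neg, neg_mul]
      have h2 : (2 : ℂ) * ∑ u : (ZMod N)ˣ, f u * (χ u)⁻¹ = 0 := by linear_combination h1
      simpa using h2
    · have h1 : ∑ x, f x * SS χ x = 0 := by
        have h2 : ∑ t : (ZMod N)ˣ, χ t * ∑ x, f x * (saw ((t : ZMod N) * x) : ℂ) = 0 :=
          sum_eq_zero fun t _ => by rw [h t, mul_zero]
        rw [← h2]
        simp only [SS, mul_sum]
        rw [sum_comm]
        exact sum_congr rfl fun t _ => sum_congr rfl fun x _ => by ring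
      have h3 : ∑ x, f x * SS χ x = (∑ u : (ZMod N)ˣ, f u * (χ u)⁻¹) * SS χ 1 := by
        rw [sum_mul, ← sum_subset (subset_univ (univ.filter fun x : ZMod N => x ≠ 0))
          (fun x _ hx => by
            have : x = 0 := by simpa using hx
            rw [this, h0, zero_mul])]
        symm
        refine sum_bij (fun (u : (ZMod N)ˣ) _ => (u : ZMod N)) (fun u _ => by simp)
          (fun u _ v _ huv => Units.ext huv)
          (fun x hx => ⟨Units.mk0 x (by simpa using hx), mem_univ _, rfl⟩) fun u _ => ?_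
        have h4 := SS_unit χ u 1
        rw [mul_one] at h4
        rw [h4]
        ring
      rw [h3] at h1
      exact (mul_eq_zero.1 h1).resolve_right (SS_one_ne_zero χ ho)
  funext x
  by_cases hx : x = 0
  · rw [hx]; exact h0
  have h1 : ∑ χ : DirichletCharacter ℂ N, χ x * ∑ u : (ZMod N)ˣ, f u * (χ u)⁻¹ = 0 :=
    sum_eq_zero fun χ _ => by rw [hF, mul_zero]
  have h2 : ∑ χ : DirichletCharacter ℂ N, χ x * ∑ u : (ZMod N)ˣ, f u * (χ u)⁻¹ =
      ∑ u : (ZMod N)ˣ, f u * ∑ χ : DirichletCharacter ℂ N, χ ((u : ZMod N)⁻¹) * χ x := by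
    simp only [mul_sum]
    rw [sum_comm]
    refine sum_congr rfl fun u _ => sum_congr rfl fun χ _ => ?_
    have h5 : χ ((u : ZMod N)⁻¹) = (χ u)⁻¹ := by
      apply eq_inv_of_mul_eq_one_left
      rw [← map_mul, inv_mul_cancel₀ (Units.ne_zero u), map_one]
    rw [h5]
    ring
  rw [h2] at h1
  have h3 : ∀ u : (ZMod N)ˣ, ∑ χ : DirichletCharacter ℂ N, χ ((u : ZMod N)⁻¹) * χ x =
      if (u : ZMod N) = x then (N.totient : ℂ) else 0 := fun u =>
    DirichletCharacter.sum_char_inv_mul_char_eq ℂ (Units.isUnit u) x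
  simp only [h3] at h1
  rw [sum_eq_single (Units.mk0 x hx)] at h1
  · rw [Units.val_mk0, if_pos rfl] at h1
    have h4 : (N.totient : ℂ) ≠ 0 := by
      exact_mod_cast (Nat.totient_pos.2 (Fact.out (p := N.Prime)).pos).ne'
    exact (mul_eq_zero.1 h1).resolve_right h4
  · intro u _ hu
    rw [if_neg (fun h5 => hu (Units.ext (by rw [h5, Units.val_mk0]))), mul_zero]
  · intro h5
    exact absurd (mem_univ _) h5

/-- the odd part of a multiset -/
def oddPart (a : Multiset (ZMod N)) (x : ZMod N) : ℤ := a.count x - a.count (-x)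

theorem sum_count (a : Multiset (ZMod N)) (g : ZMod N → ℤ) :
    ∑ x, (a.count x : ℤ) * g x = (a.map g).sum := by
  classical
  induction a using Multiset.induction_on with
  | empty => simp
  | cons y a ih =>
    rw [Multiset.map_cons, Multiset.sum_cons, ← ih]
    have h1 : ∀ x, (((y ::ₘ a).count x : ℕ) : ℤ) * g x =
        (if x = y then g y else 0) + (a.count x : ℤ) * g x := by
      intro x
      rw [Multiset.count_cons]
      split_ifs with h
      · subst h
        push_cast
        ring
      · push_cast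
        ring
    rw [sum_congr rfl fun x _ => h1 x, sum_add_distrib, sum_ite_eq' univ y, if_pos (mem_univ _)]

theorem sum_oddPart (a : Multiset (ZMod N)) (t : (ZMod N)ˣ) :
    ∑ x, oddPart a x * saw ((t : ZMod N) * x) = 2 * sawSum a t := by
  have h1 : ∑ x, (a.count (-x) : ℤ) * saw ((t : ZMod N) * x) = -sawSum a t := by
    rw [← Equiv.sum_comp (Equiv.neg (ZMod N))]
    simp only [Equiv.neg_apply, neg_neg, mul_neg, saw_neg]
    rw [sum_neg_distrib, sum_count, sawSum]
  have h2 : ∑ x, (a.count x : ℤ) * saw ((t : ZMod N) * x) = sawSum a t := by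
    rw [sum_count, sawSum]
  simp only [oddPart, sub_mul, sum_sub_distrib]
  rw [h1, h2]
  ring

/-- **The arithmetic lemma.** -/
theorem symm_of_index {a : Multiset (ZMod N)} {s B : ℕ} (hs : a.card ≤ s)
    (H : Subgroup (ZMod N)ˣ) (hH : ∀ h ∈ H, ∀ t : (ZMod N)ˣ,
      sawSum a ((t : ZMod N) * (h : (ZMod N)ˣ)) = sawSum a t)
    (hB : H.index ≤ B) (hN : 2 * s * B + 1 < N) : a.map Neg.neg = a := by
  classical
  have hinv : ∀ h ∈ H, ∀ x, oddPart a (((h⁻¹ : (ZMod N)ˣ) : ZMod N) * x) = oddPart a x := by
    intro h hh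
    let f : ZMod N → ℂ := fun x =>
      ((oddPart a (((h⁻¹ : (ZMod N)ˣ) : ZMod N) * x) - oddPart a x : ℤ) : ℂ)
    have hf : f = 0 := by
      apply eq_zero_of_saw
      · intro x
        simp only [f, oddPart, mul_neg, neg_neg]
        push_cast
        ring
      · intro t
        have h1 : ∑ x, (oddPart a (((h⁻¹ : (ZMod N)ˣ) : ZMod N) * x) - oddPart a x) *
            saw ((t : ZMod N) * x) = 0 := by
          simp only [sub_mul, sum_sub_distrib]
          rw [sum_oddPart, ← Equiv.sum_comp (Units.mulLeft h)]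
          have h2 : ∀ x : ZMod N, oddPart a (((h⁻¹ : (ZMod N)ˣ) : ZMod N) * (Units.mulLeft h x)) *
              saw ((t : ZMod N) * (Units.mulLeft h x)) =
              oddPart a x * saw (((t * h : (ZMod N)ˣ) : ZMod N) * x) := by
            intro x
            rw [Units.mulLeft_apply, ← mul_assoc, ← mul_assoc, Units.val_mul,
              ← Units.val_mul h⁻¹, inv_mul_cancel, Units.val_one, one_mul]
          rw [sum_congr rfl fun x _ => h2 x, sum_oddPart, Units.val_mul, hH h hh t, sub_self]
        have h2 := congrArg (fun z : ℤ => (z : ℂ)) h1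
        push_cast at h2
        simp only [f]
        push_cast
        exact h2
    intro x
    have h3 := congrFun hf x
    simp only [f, Pi.zero_apply, Int.cast_eq_zero] at h3
    exact sub_eq_zero.1 h3
  have hzero : ∀ x, oddPart a x = 0 := by
    by_contra hcon
    push Not at hcon
    obtain ⟨x, hx⟩ := hcon
    have hx0 : x ≠ 0 := by
      rintro rfl
      apply hx
      rw [oddPart, neg_zero, sub_self]
    have h1 : (H : Set (ZMod N)ˣ).ncard ≤ 2 * s := by
      have h2 : (H : Set (ZMod N)ˣ).ncard ≤
          ((a.toFinset ∪ (a.map Neg.neg).toFinset : Finset (ZMod N)) : Set (ZMod N)).ncard := by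
        refine Set.ncard_le_ncard_of_injOn (fun h : (ZMod N)ˣ => (h : ZMod N) * x) ?_ ?_
          (Set.toFinite _)
        · intro h hh
          have h3 := hinv h⁻¹ (H.inv_mem hh) x
          rw [inv_inv] at h3
          have h4 : oddPart a ((h : ZMod N) * x) ≠ 0 := by rw [h3]; exact hx
          rw [Finset.mem_coe, mem_union, Multiset.mem_toFinset, Multiset.mem_toFinset,
            Multiset.mem_map]
          by_contra h5
          push Not at h5
          apply h4
          rw [oddPart, Multiset.count_eq_zero_of_notMem h5.1,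
            Multiset.count_eq_zero_of_notMem (fun h6 => h5.2 _ h6 (neg_neg _)), sub_self]
        · intro h _ h' _ he
          exact Units.ext (mul_right_cancel₀ hx0 he)
      rw [Set.ncard_coe_finset] at h2
      have h3 := Finset.card_union_le a.toFinset (a.map Neg.neg).toFinset
      have h4 := Multiset.toFinset_card_le a
      have h5 := Multiset.toFinset_card_le (a.map Neg.neg)
      rw [Multiset.card_map] at h5
      omega
    have h2 : Nat.card H * H.index = Nat.card (ZMod N)ˣ := H.card_mul_index
    have h3 : Nat.card H = (H : Set (ZMod N)ˣ).ncard := rfl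
    have h4 : Nat.card (ZMod N)ˣ = N - 1 := by
      rw [Nat.card_eq_fintype_card, ZMod.card_units_eq_totient,
        Nat.totient_prime (Fact.out (p := N.Prime))]
    have h5 : Nat.card H * H.index ≤ 2 * s * B := Nat.mul_le_mul (h3 ▸ h1) hB
    omega
  ext x
  have h1 := hzero x
  rw [oddPart, sub_eq_zero] at h1
  have h2 : (a.map Neg.neg).count x = a.count (-x) := by
    conv_lhs => rw [← neg_neg x]
    exact Multiset.count_map_eq_count' _ _ neg_injective _
  rw [h2]
  exact_mod_cast h1.symm

end Pool.Agent.U231.FT
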