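import Pool.Agent.U231.LP.Defs

/-!
# Varieties of Fermat type: definitions
-/

set_option autoImplicit false

open CategoryTheory AlgebraicGeometry

universe u

namespace Pool.Agent.U231.FT

open Pool.Agent.Y95.ZT.S Pool.Agent.U231.LP

/-- The sawtooth function: `2 b - N` for `0 < b < N`, and `0` for `b = 0`. -/
def saw {N : ℕ} (b : ZMod N) : ℤ := if b = 0 then 0 else 2 * (b.val : ℤ) - N

/-- The algebra `A` is the cohomology of a variety, with the subspaces `gr i`, the span `C` of the
algebraic classes, and the action `ρ`. It is the direct sum of subspaces `V i`, and every `V i` is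
contained in `gr (d i)` and has a character `a i`, a multiset of at most `s` residues modulo `N`. On
`V i` the weight operator is the multiplication by
`d i / 2 + ∑ saw x / (2 N)`, where `x` runs through `a i`. An element `g` of the Galois group maps the
subspace with the character `c g • a i` to `V i`. If `a i = - a i` then `V i` is spanned by algebraic
classes. -/
structure IsFermatAct {K : Type} [Field K] {A : Type} [Ring A] [Algebra K A]
    [FiniteDimensional K A] {Γ : Type} [Group Γ] (D : WeightData K Γ) (N s : ℕ)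
    (c : Γ →* (ZMod N)ˣ) (gr : ℕ → Submodule K A) (C : Submodule K A) (ρ : Γ →* (A ≃ₐ[K] A))
    {n : ℕ} (V : Fin n → Submodule K A) (d : Fin n → ℕ) (a : Fin n → Multiset (ZMod N)) :
    Prop where
  internal : DirectSum.IsInternal V
  degree : ∀ i, V i ≤ gr (d i)
  card : ∀ i, (a i).card ≤ s
  weight : ∀ i, ∀ x ∈ V i,
    (2 * N : K) • algWeight D ρ x = ((N * d i + ((a i).map saw).sum : ℤ) : K) • x
  perm : ∀ g, ∃ π : Equiv.Perm (Fin n), ∀ i, d (π i) = d i ∧
    a (π i) = (a i).map (fun x => (c g : ZMod N) * x) ∧ ∀ x ∈ V (π i), ρ g x ∈ V i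
  alg : ∀ i, (a i).map (fun x => -x) = a i → V i ≤ C

open Pool.Agent.H914 Pool.Agent.H914.VarClass Pool.Agent.H914.VarClass.Obj
  Pool.Agent.H914.WeilCohomology Pool.Agent.H281R3.HT Pool.Agent.TH125.Gal

variable {k : Type u} [Field k] {𝒱 : VarClass k} {ops : CycleOps 𝒱}
  {W : WeilCohomology.{u, 0} ops} {Γ : Type} [Group Γ]

/-- The varieties `X i` are of Fermat type of prime degrees `N i`, with at most `s i` entries in the
characters, and with independent `c i`. -/
structure IsFermatFamily (D : WeightData W.K Γ) {ι : Type} (N s : ι → ℕ) (X : ι → GVar W Γ) :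
    Prop where
  prime : ∀ i, (N i).Prime
  galois : ∀ i, GaloisType D (X i)
  point : ∀ i, ∃ z, (X i).X.IsCyc (X i).X.dim z ∧ (X i).X.V.degCycle z ≠ 0
  type : ∃ c : ∀ i, Γ →* (ZMod (N i))ˣ, IsIndependent c ∧ ∀ i, ∃ (n : ℕ)
    (V : Fin n → Submodule W.K (W.H (X i).X)) (d : Fin n → ℕ) (a : Fin n → Multiset (ZMod (N i))),
    IsFermatAct D (N i) (s i) (c i) (W.gr (X i).X) (algSpan W (X i).X) (X i).act V d a

end Pool.Agent.U231.FT
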